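import Pool.Agent.H79.BN.Targets

/-! # Non-separation: surviving states cannot converge to an absorbed state -/

namespace Pool.Agent.H91.BN

open MeasureTheory Set Filter Topology Pool.Agent.H93.BL Pool.Agent.H79.BN

theorem v9 : T_V9 := by
  intro n _ w E y d hAb F P z d' hclose hsurv hpos hdir hc
  obtain ⟨c, hc, hd⟩ := hc
  obtain ⟨δ, hδ, h⟩ := hAb
  have hn1 : ‖d'‖ = 1 := by
    have h1 : Tendsto (fun k => ‖(P k).dir (z k)‖) F (𝓝 ‖d'‖) := hdir.norm
    have h2 : Tendsto (fun k => ‖(P k).dir (z k)‖) F (𝓝 1) := by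
      simp only [Polygon.norm_dir]
      exact tendsto_const_nhds
    exact tendsto_nhds_unique h1 h2
  have hc0 : (c : ℂ) ≠ 0 := by exact_mod_cast hc.ne'
  have hdd : d / (‖d‖ : ℂ) = d' := by
    rw [hd, norm_mul, Complex.norm_real, Real.norm_eq_abs, abs_of_pos hc, hn1, mul_one]
    exact mul_div_cancel_left₀ _ hc0
  have e1 : ∀ᶠ k in (F : Filter ℕ), ‖(P k).pos (z k) - y‖ < δ :=
    (tendsto_iff_norm_sub_tendsto_zero.1 hpos).eventually (gt_mem_nhds hδ)
  have e2 : ∀ᶠ k in (F : Filter ℕ), ‖(P k).dir (z k) - d'‖ < δ :=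
    (tendsto_iff_norm_sub_tendsto_zero.1 hdir).eventually (gt_mem_nhds hδ)
  obtain ⟨k, ⟨h1, h2⟩, h3, h4⟩ := (((hclose δ hδ).and hsurv).and (e1.and e2)).exists
  refine h (P k) h1 (z k) h3 ?_ h2
  rw [hdd]
  exact h4

end Pool.Agent.H91.BN
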