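import Pool.Agent.H79.BN.Targets

/-! # Non-separation: exits of a line -/

namespace Pool.Agent.H91.BN

open MeasureTheory Set Filter Topology Pool.Agent.H93.BL Pool.Agent.H79.BN

theorem par_of_cr {d v : ℂ} (hd : d ≠ 0) (h : cr d v = 0) : ∃ t : ℝ, v = (t : ℂ) * d := by
  have hn : d.re * d.re + d.im * d.im ≠ 0 := by
    have := Complex.normSq_pos.2 hd
    rw [Complex.normSq_apply] at this
    exact this.ne'
  have hc : d.re * v.im - d.im * v.re = 0 := h
  refine ⟨(v.re * d.re + v.im * d.im) / (d.re * d.re + d.im * d.im), ?_⟩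
  apply Complex.ext
  · rw [Complex.re_ofReal_mul, div_mul_eq_mul_div, eq_div_iff hn]
    linear_combination (-d.im) * hc
  · rw [Complex.im_ofReal_mul, div_mul_eq_mul_div, eq_div_iff hn]
    linear_combination d.re * hc

theorem cr_shift (e a b d : ℂ) (τ σ : ℝ) :
    cr e ((a + (τ : ℂ) * d) - b) = cr e ((a + (σ : ℂ) * d) - b) + (τ - σ) * cr e d := by
  rw [cr_sub_right, cr_sub_right, cr_add_right, cr_add_right, cr_smul_right, cr_smul_right]
  ring

theorem x1 (h0 : T_V0) (h1 : T_V1) (h3 : T_V3) : T_X1 := by
  intro n _ w hn hw X d s k τ hx hk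
  obtain ⟨-, -, -, v4, v5⟩ := h1 n w hn hw
  obtain ⟨A1, A2, -, -, -⟩ := h3 n w hn hw k k _ hx
  have A3 : ∀ j, X + (τ : ℂ) * d ∈ openSegment ℝ (w j) (w (j + 1)) → k = j :=
    fun j => (h3 n w hn hw j k _ hx).2.2.1
  have A4 : ∀ j, X + (τ : ℂ) * d = w j → k = j - 1 ∨ k = j :=
    fun j => (h3 n w hn hw j k _ hx).2.2.2.1
  obtain ⟨-, -, -, -, -, hs1, -, -, -, -⟩ := h0 n hn s
  obtain ⟨-, -, -, -, -, hk1, hk2, -, -, -⟩ := h0 n hn k
  refine ⟨?_, ?_, ?_, ?_⟩
  · intro ha hb
    have hd : d ≠ 0 := by
      rintro rfl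
      rw [cr_zero_left] at ha
      exact lt_irrefl _ ha
    have hab : cr d (w (s + 1) - X) = cr d (w s - X) + cr d (ed w s) := by
      rw [← cr_add_right]
      congr 1
      unfold ed
      ring
    have hpos : 0 < cr d (ed w s) := by linarith
    have hneg : cr (ed w s) d < 0 := by
      rw [cr_swap]
      linarith
    obtain ⟨lam, hlam⟩ : ∃ lam : ℝ, lam = -cr d (w s - X) / cr d (ed w s) := ⟨_, rfl⟩
    have hlam2 : lam * cr d (ed w s) = -cr d (w s - X) := by
      rw [hlam, div_mul_cancel₀ _ hpos.ne']
    have l0 : 0 < lam := by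
      rw [hlam]
      exact div_pos (by linarith) hpos
    have l1 : lam < 1 := by
      rw [hlam, div_lt_one hpos]
      linarith
    have hxs : cr d ((w s + (lam : ℂ) * ed w s) - X) = 0 := by
      rw [show (w s + (lam : ℂ) * ed w s) - X = (w s - X) + (lam : ℂ) * ed w s by ring,
        cr_add_right, cr_smul_right, hlam2]
      ring
    obtain ⟨σ, hσ⟩ := par_of_cr hd hxs
    have hxs2 : w s + (lam : ℂ) * ed w s = X + (σ : ℂ) * d := by
      rw [← hσ]
      ring
    have hopen : X + (σ : ℂ) * d ∈ openSegment ℝ (w s) (w (s + 1)) := by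
      rw [← hxs2, openSegment_eq_image']
      refine ⟨lam, ⟨l0, l1⟩, ?_⟩
      simp only [Complex.real_smul, ed]
    have hseg := openSegment_subset_segment ℝ _ _ hopen
    obtain ⟨B1, B2, -, -, -⟩ := h3 n w hn hw s s _ hseg
    have B5 := (h3 n w hn hw k s _ hseg).2.2.2.2
    have i1 : τ ≤ σ := by
      have := A1 s
      rw [cr_shift _ _ _ _ τ σ, B2, zero_add] at this
      by_contra hcon
      push Not at hcon
      have := mul_neg_of_pos_of_neg (sub_pos.2 hcon) hneg
      linarith
    have i2 := B1 k
    rw [cr_shift _ _ _ _ σ τ, A2, zero_add] at i2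
    rcases lt_or_eq_of_le hk with hk' | hk'
    · have i3 : σ ≤ τ := by
        by_contra hcon
        push Not at hcon
        have := mul_neg_of_pos_of_neg (sub_pos.2 hcon) hk'
        linarith
      have : τ = σ := le_antisymm i1 i3
      subst this
      exact A3 s hopen
    · by_contra hks
      have i4 : cr (ed w k) (X + (σ : ℂ) * d - w k) = 0 := by
        rw [cr_shift _ _ _ _ σ τ, A2, hk', mul_zero, add_zero]
      rcases B5 (fun h => hks h.symm) i4 with ⟨h5, h6⟩ | ⟨h5, h6⟩
      · have h7 : s + 1 = k := by rw [h6, hk1]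
        have : cr d (w (s + 1) - X) = 0 := by
          rw [h7, ← h5, add_sub_cancel_left, cr_smul_right, cr_self, mul_zero]
        linarith
      · have : cr d (w s - X) = 0 := by
          rw [h6, ← h5, add_sub_cancel_left, cr_smul_right, cr_self, mul_zero]
        linarith
  · intro ha hs hs'
    have hd : d ≠ 0 := by
      rintro rfl
      rw [cr_zero_right] at hs
      exact lt_irrefl _ hs
    obtain ⟨σ, hσ⟩ := par_of_cr hd ha
    have hws : w s = X + (σ : ℂ) * d := by
      rw [← hσ]
      ring
    have i1 : τ ≤ σ := by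
      have := A1 s
      rw [cr_shift _ _ _ _ τ σ, ← hws, sub_self, cr_zero_right, zero_add] at this
      by_contra hcon
      push Not at hcon
      have := mul_neg_of_pos_of_neg (sub_pos.2 hcon) hs'
      linarith
    have i2 := v4 k s
    rw [hws, cr_shift _ _ _ _ σ τ, A2, zero_add] at i2
    rcases lt_or_eq_of_le hk with hk' | hk'
    · have i3 : σ ≤ τ := by
        by_contra hcon
        push Not at hcon
        have := mul_neg_of_pos_of_neg (sub_pos.2 hcon) hk'
        linarith
      have : τ = σ := le_antisymm i1 i3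
      subst this
      exact ⟨A4 s hws.symm, hws.symm⟩
    · exfalso
      have i4 : cr (ed w k) (w s - w k) = 0 := by
        rw [hws, cr_shift _ _ _ _ σ τ, A2, hk', mul_zero, add_zero]
      rcases v5 k s i4 with h6 | h6
      · rw [h6] at hs'
        linarith
      · rw [h6, hk2] at hs
        linarith
  · intro ha hs hs'
    have e1 : τ ≤ 0 := by
      have := A1 s
      rw [ha, add_sub_cancel_left, cr_smul_right] at this
      by_contra hcon
      push Not at hcon
      have := mul_neg_of_pos_of_neg hcon hs'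
      linarith
    have e2 : 0 ≤ τ := by
      have := A1 (s - 1)
      rw [ha, show w s + (τ : ℂ) * d - w (s - 1) = ed w (s - 1) + (τ : ℂ) * d by
        unfold ed
        rw [hs1]
        ring, cr_add_right, cr_self, zero_add, cr_smul_right] at this
      by_contra hcon
      push Not at hcon
      have := mul_neg_of_neg_of_pos hcon hs
      linarith
    have e3 : τ = 0 := le_antisymm e1 e2
    have e4 : X + (τ : ℂ) * d = w s := by
      rw [e3, ha]
      simp
    refine ⟨?_, e4⟩
    rcases A4 s e4 with h | h
    · rw [h] at hk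
      linarith
    · exact h
  · intro ha hs hs'
    have e1 : 0 ≤ τ := by
      have := A1 s
      rw [ha, add_sub_cancel_left, cr_smul_right] at this
      by_contra hcon
      push Not at hcon
      have := mul_neg_of_neg_of_pos hcon hs'
      linarith
    have e2 : τ ≤ 0 := by
      have := A1 (s - 1)
      rw [ha, show w s + (τ : ℂ) * d - w (s - 1) = ed w (s - 1) + (τ : ℂ) * d by
        unfold ed
        rw [hs1]
        ring, cr_add_right, cr_self, zero_add, cr_smul_right] at this
      by_contra hcon
      push Not at hcon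
      have := mul_neg_of_pos_of_neg hcon hs
      linarith
    have e3 : τ = 0 := le_antisymm e2 e1
    have e4 : X + (τ : ℂ) * d = w s := by
      rw [e3, ha]
      simp
    refine ⟨?_, e4⟩
    rcases A4 s e4 with h | h
    · exact h
    · rw [h] at hk
      linarith

end Pool.Agent.H91.BN
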