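import Pool.Agent.H79.BN.Targets

/-! # Non-separation: a sequence of separated pairs -/

namespace Pool.Agent.H91.BN

open MeasureTheory Set Filter Topology Pool.Agent.H93.BL Pool.Agent.H79.BN

theorem ultra_const {n : ℕ} (F : Ultrafilter ℕ) (g : ℕ → Fin n) :
    ∃ a, ∀ᶠ k in (F : Filter ℕ), g k = a := by
  obtain ⟨a, ha⟩ := Ultrafilter.eq_pure_of_finite (Ultrafilter.map g F)
  refine ⟨a, ?_⟩
  have h : ({a} : Set (Fin n)) ∈ Ultrafilter.map g F := by
    rw [ha]
    exact Ultrafilter.mem_pure.2 rfl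
  exact Ultrafilter.mem_map.1 h

theorem y2a (h4 : T_V4) (h6 : T_V6) : T_Y2A := by
  intro n _ w E hn hw hneg
  obtain ⟨δ0, hδ0, hconv⟩ := h4 n w hw
  have hP : ∀ k : ℕ, ∃ P : Polygon (Fin n), Close w (min (1 / ((k : ℝ) + 1)) δ0) P ∧
      ∃ (i : Fin n) (s s' φ : ℝ), s < s' ∧ (s' - s) * Real.cos φ < min (1 / ((k : ℝ) + 1)) δ0 ∧
        Trapped P E (i, s, φ) ∧ Trapped P E (i, s', φ) ∧
        ¬ ∃ j, ∀ r ∈ Icc s s', ∃ z', P.Step (i, r, φ) z' ∧ z'.1 = j := by
    intro k
    have hpos : 0 < min (1 / ((k : ℝ) + 1)) δ0 := lt_min (by positivity) hδ0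
    by_contra hcon
    push Not at hcon
    apply hneg
    refine ⟨_, hpos, fun P hc => ?_⟩
    intro i s s' φ hs hsc ht ht'
    obtain ⟨j, hj⟩ := hcon P hc i s s' φ hs hsc ht ht'
    exact ⟨j, hj⟩
  choose P hclose i s s' φ hss hsc ht ht' hno using hP
  choose f hf0 hf using ht
  choose f' hf0' hf' using ht'
  have hne : ∀ k, (f k 1).1 ≠ (f' k 1).1 := by
    intro k heq
    apply hno k
    have hst := (hf k 0).1
    rw [hf0 k, zero_add] at hst
    have hst' := (hf' k 0).1
    rw [hf0' k, zero_add] at hst'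
    have hcp : ConvPos (P k).p := hconv _ fun i => ((hclose k).2 i).trans_le (min_le_right _ _)
    exact ⟨(f k 1).1, h6 n (P k) hn (hclose k).1 hcp (i k) (f k 1).1 (s k) (s' k) (φ k) (f k 1)
      (f' k 1) (hss k) hst hst' rfl heq.symm⟩
  obtain ⟨j, hj⟩ := ultra_const (hyperfilter ℕ) fun k => (f k 1).1
  obtain ⟨j', hj'⟩ := ultra_const (hyperfilter ℕ) fun k => (f' k 1).1
  have hle : ((hyperfilter ℕ : Ultrafilter ℕ) : Filter ℕ) ≤ atTop := Nat.hyperfilter_le_atTop
  have hlim : Tendsto (fun k : ℕ => 1 / ((k : ℝ) + 1)) (hyperfilter ℕ : Filter ℕ) (𝓝 0) :=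
    tendsto_one_div_add_atTop_nhds_zero_nat.mono_left hle
  refine ⟨{ F := hyperfilter ℕ
            P := P
            f := f
            f' := f'
            j := j
            j' := j'
            close := ?_
            step := hf
            step' := hf'
            par := ?_
            near := ?_
            hit := hj.and hj'
            ne := ?_ }⟩
  · intro δ hδ
    have h1 : ∀ᶠ k : ℕ in ((hyperfilter ℕ : Ultrafilter ℕ) : Filter ℕ), 1 / ((k : ℝ) + 1) < δ :=
      hlim.eventually (gt_mem_nhds hδ)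
    refine h1.mono fun k hk => ⟨(hclose k).1, fun i => ?_⟩
    exact (((hclose k).2 i).trans_le (min_le_left _ _)).trans hk
  · intro k
    rw [hf0 k, hf0' k]
    exact ⟨rfl, rfl⟩
  · refine squeeze_zero_norm (fun k => ?_) hlim
    rw [hf0 k, hf0' k]
    have hcos : 0 < Real.cos (φ k) := by
      have hst := (hf k 0).1
      rw [hf0 k] at hst
      exact (P k).cos_pos_of_phase hst.1
    have e1 : (P k).pos (i k, s' k, φ k) - (P k).pos (i k, s k, φ k) =
        ((s' k - s k : ℝ) : ℂ) * (P k).u (i k) := by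
      simp only [Polygon.pos]
      push_cast
      ring
    have e2 : ip ((P k).dir (i k, s k, φ k)) ((P k).n (i k)) = Real.cos (φ k) :=
      (P k).ip_dir_n (i k, s k, φ k)
    rw [e1, cr_smul_right, Polygon.cr_u, e2, Real.norm_eq_abs, mul_neg, abs_neg,
      abs_of_pos (mul_pos (sub_pos.2 (hss k)) hcos)]
    exact (hsc k).le.trans (min_le_left _ _)
  · obtain ⟨k, h1, h2⟩ := (hj.and hj').exists
    intro h
    exact hne k (by rw [h1, h2, h])

end Pool.Agent.H91.BN
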