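import Pool.Agent.H79.BN.Targets

/-! # Non-separation: the limit of a sequence of separated pairs -/

namespace Pool.Agent.H91.BN

open MeasureTheory Set Filter Topology Pool.Agent.H93.BL Pool.Agent.H79.BN

theorem ultra_lim (F : Ultrafilter ℕ) (g : ℕ → ℂ) (K : Set ℂ) (hK : IsCompact K)
    (h : ∀ᶠ k in (F : Filter ℕ), g k ∈ K) : ∃ a ∈ K, Tendsto g F (𝓝 a) := by
  have h2 : K ∈ Ultrafilter.map g F := Ultrafilter.mem_map.2 h
  obtain ⟨a, ha, h3⟩ := hK.ultrafilter_le_nhds (Ultrafilter.map g F) (le_principal_iff.2 h2)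
  exact ⟨a, ha, h3⟩

theorem tendsto_cr {F : Filter ℕ} {a b : ℕ → ℂ} {a0 b0 : ℂ} (ha : Tendsto a F (𝓝 a0))
    (hb : Tendsto b F (𝓝 b0)) : Tendsto (fun k => cr (a k) (b k)) F (𝓝 (cr a0 b0)) := by
  have hc : Continuous fun p : ℂ × ℂ => cr p.1 p.2 := by
    unfold cr
    fun_prop
  exact (hc.tendsto (a0, b0)).comp (ha.prodMk_nhds hb)

theorem par_of_cr' {d v : ℂ} (hd : d ≠ 0) (h : cr d v = 0) : ∃ t : ℝ, v = (t : ℂ) * d := by
  have hn : d.re * d.re + d.im * d.im ≠ 0 := by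
    have := Complex.normSq_pos.2 hd
    rw [Complex.normSq_apply] at this
    exact this.ne'
  have hc : d.re * v.im - d.im * v.re = 0 := h
  refine ⟨(v.re * d.re + v.im * d.im) / (d.re * d.re + d.im * d.im), ?_⟩
  apply Complex.ext
  · rw [Complex.re_ofReal_mul, div_mul_eq_mul_div, eq_div_iff hn]
    linear_combination (-d.im) * hc
  · rw [Complex.im_ofReal_mul, div_mul_eq_mul_div, eq_div_iff hn]
    linear_combination d.re * hc

theorem pos_bdd {n : ℕ} [NeZero n] {w : Fin n → ℂ} {P : Polygon (Fin n)} (hP : Close w 1 P)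
    {z : Fin n × ℝ × ℝ} (hz : P.Phase z) :
    P.pos z ∈ Metric.closedBall (0 : ℂ) ((∑ i, ‖w i‖) + 1) := by
  have hv : ∀ i, P.p i ∈ Metric.closedBall (0 : ℂ) ((∑ i, ‖w i‖) + 1) := by
    intro i
    rw [mem_closedBall_zero_iff]
    have h1 : ‖w i‖ ≤ ∑ i, ‖w i‖ :=
      Finset.single_le_sum (f := fun i => ‖w i‖) (fun _ _ => norm_nonneg _) (Finset.mem_univ i)
    have h2 := hP.2 i
    have h3 : ‖P.p i‖ ≤ ‖P.p i - w i‖ + ‖w i‖ := by
      have := norm_add_le (P.p i - w i) (w i)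
      rwa [sub_add_cancel] at this
    linarith
  have h1 := openSegment_subset_segment ℝ _ _ (P.pos_mem hz)
  rw [hP.1 z.1] at h1
  exact (convex_closedBall _ _).segment_subset (hv _) (hv _) h1

theorem y2b (h7 : T_V7) : T_Y2B := by
  intro n _ w E S hn hw
  have hstep : ∀ k, (S.P k).Step (S.f k 0) (S.f k 1) := fun k => by
    have := (S.step k 0).1
    rwa [zero_add] at this
  have hstep' : ∀ k, (S.P k).Step (S.f' k 0) (S.f' k 1) := fun k => by
    have := (S.step' k 0).1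
    rwa [zero_add] at this
  have hdir : ∀ k, (S.P k).dir (S.f' k 0) = (S.P k).dir (S.f k 0) := by
    intro k
    unfold Polygon.dir
    rw [(S.par k).1, (S.par k).2]
  obtain ⟨y, -, hy⟩ := ultra_lim S.F (fun k => (S.P k).pos (S.f k 0))
    (Metric.closedBall (0 : ℂ) ((∑ i, ‖w i‖) + 1)) (isCompact_closedBall _ _)
    ((S.close 1 one_pos).mono fun k hk => pos_bdd hk (hstep k).1)
  obtain ⟨y', -, hy'⟩ := ultra_lim S.F (fun k => (S.P k).pos (S.f' k 0))
    (Metric.closedBall (0 : ℂ) ((∑ i, ‖w i‖) + 1)) (isCompact_closedBall _ _)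
    ((S.close 1 one_pos).mono fun k hk => pos_bdd hk (hstep' k).1)
  obtain ⟨d, hd, hdl⟩ := ultra_lim S.F (fun k => (S.P k).dir (S.f k 0))
    (Metric.sphere (0 : ℂ) 1) (isCompact_sphere _ _)
    (Eventually.of_forall fun k => by
      rw [mem_sphere_zero_iff_norm]
      exact (S.P k).norm_dir _)
  have hd1 : ‖d‖ = 1 := mem_sphere_zero_iff_norm.1 hd
  have hd0 : d ≠ 0 := by
    rintro rfl
    rw [norm_zero] at hd1
    exact zero_ne_one hd1
  have hdl' : Tendsto (fun k => (S.P k).dir (S.f' k 0)) S.F (𝓝 d) := by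
    simp only [hdir]
    exact hdl
  have hcr : cr d (y' - y) = 0 :=
    tendsto_nhds_unique (tendsto_cr hdl (hy'.sub hy)) S.near
  obtain ⟨σ, hσ⟩ := par_of_cr' hd0 hcr
  obtain ⟨t, -, a1, a2, a3, a4⟩ := h7 n w hn hw S.F S.P (fun k => S.f k 0) (fun k => S.f k 1) S.j
    y d S.close (S.hit.mono fun k hk => ⟨hstep k, hk.1⟩) hy hdl
  obtain ⟨t', -, b1, b2, b3, b4⟩ := h7 n w hn hw S.F S.P (fun k => S.f' k 0) (fun k => S.f' k 1)
    S.j' y' d S.close (S.hit.mono fun k hk => ⟨hstep' k, hk.2⟩) hy' hdl'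
  have e : y' + (t' : ℂ) * d = y + ((σ + t' : ℝ) : ℂ) * d := by
    rw [show y' = y + (σ : ℂ) * d by rw [← hσ]; ring]
    push_cast
    ring
  rw [e] at b1 b3
  exact ⟨y, d, t, σ + t', hd1, hdl, hdl', a1, a2, b1, b2, a3, b3, a4, b4⟩

end Pool.Agent.H91.BN
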